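import Pool.Agent.H33.NFA.A
import Pool.Agent.H66.T1.QSK

/-!
# NFA, module DSC: from the completion to `K` by density
-/

set_option autoImplicit false

namespace Pool.NFA

open Polynomial Matrix Pool.HYP Pool.TOW Pool.AVS Pool.T1

namespace DSCaux

variable {L : Type} [Field L] {O : ValuationSubring L}

/-- The matrix over `O`. -/
private theorem lift {n : ℕ} {A : Matrix (Fin n) (Fin n) L} (hA : MIn (O : Set L) A) :
    ∃ B : Matrix (Fin n) (Fin n) O, B.map (algebraMap O L) = A :=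
  ⟨Matrix.of fun i j => ⟨A i j, hA i j⟩, by ext i j; rfl⟩

private theorem det_unit {n : ℕ} {Z : Matrix (Fin n) (Fin n) L} (hZ : MIn (O : Set L) Z) {ϖ : O}
    (hϖ : ϖ ∈ IsLocalRing.maximalIdeal O) :
    UI (O : Set L) (1 - (ϖ : L) • Z).det := by
  obtain ⟨B, hB⟩ := lift hZ
  have h1 : (1 - (ϖ : L) • Z) = (1 - ϖ • B).map (algebraMap O L) := by
    rw [← hB]
    ext i j
    rw [Matrix.map_apply, Matrix.sub_apply, Matrix.sub_apply, Matrix.smul_apply,
      Matrix.smul_apply, Matrix.map_apply, map_sub, smul_eq_mul, smul_eq_mul, map_mul]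
    congr 1
    by_cases h : i = j
    · rw [h, Matrix.one_apply_eq, Matrix.one_apply_eq, map_one]
    · rw [Matrix.one_apply_ne h, Matrix.one_apply_ne h, map_zero]
  have h2 : (1 - (ϖ : L) • Z).det = algebraMap O L (1 - ϖ • B).det := by
    rw [h1, RingHom.map_det, RingHom.mapMatrix_apply]
  have h3 : IsUnit (1 - ϖ • B).det := by
    by_contra h
    have h4 : IsLocalRing.residue O (1 - ϖ • B).det = 0 :=
      (IsLocalRing.residue_eq_zero_iff _).mpr ((IsLocalRing.mem_maximalIdeal _).mpr h)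
    rw [RingHom.map_det, RingHom.mapMatrix_apply] at h4
    have h5 : (1 - ϖ • B).map (IsLocalRing.residue O) = 1 := by
      ext i j
      have h6 : IsLocalRing.residue O ϖ = 0 := (IsLocalRing.residue_eq_zero_iff _).mpr hϖ
      rw [Matrix.map_apply, Matrix.sub_apply, Matrix.smul_apply, map_sub, smul_eq_mul, map_mul,
        h6, zero_mul, sub_zero]
      by_cases h : i = j
      · rw [h, Matrix.one_apply_eq, Matrix.one_apply_eq, map_one]
      · rw [Matrix.one_apply_ne h, Matrix.one_apply_ne h, map_zero]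
    rw [h5, Matrix.det_one] at h4
    exact one_ne_zero h4
  rw [h2]
  obtain ⟨u, hu⟩ := h3
  rw [← hu]
  have hmul : (algebraMap O L (u : O)) * algebraMap O L ((u⁻¹ : Oˣ) : O) = 1 := by
    rw [← map_mul, Units.mul_inv, map_one]
  refine ⟨left_ne_zero_of_mul_eq_one hmul, (u : O).2, ?_⟩
  have h8 : (algebraMap O L (u : O))⁻¹ = algebraMap O L ((u⁻¹ : Oˣ) : O) :=
    inv_eq_of_mul_eq_one_right hmul
  rw [h8]
  exact ((u⁻¹ : Oˣ) : O).2

end DSCaux

open DSCaux in
/-- DSC. -/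
theorem dsc : DSCStmt := by
  intro K _ I L _ O ι hC hI n A₀ A₁ b h0 h1
  have := hC.dvr
  obtain ⟨ϖ, hϖ⟩ := IsDiscreteValuationRing.exists_irreducible O
  have hϖm : ϖ ∈ IsLocalRing.maximalIdeal O :=
    (IsLocalRing.mem_maximalIdeal _).mpr hϖ.not_isUnit
  have hϖ0 : (ϖ : L) ≠ 0 := fun h => hϖ.ne_zero (Subtype.ext h)
  have hdet : (bᵀ * A₀.map ι * b).det ≠ 0 := h0.2.1
  have hb : b.det ≠ 0 := by
    intro h
    apply hdet
    rw [Matrix.det_mul, h, mul_zero]
  obtain ⟨a, ha0, haO, ha⟩ := QSKa.den (O := O) (Finset.univ : Finset (Fin n × Fin n))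
    (fun z => b⁻¹ z.1 z.2)
  have haϖ : a * (ϖ : L) ≠ 0 := mul_ne_zero ha0 hϖ0
  choose b' hb' using fun (i j : Fin n) => hC.dense (b i j) (a * (ϖ : L)) haϖ
  set Z : Matrix (Fin n) (Fin n) L := Matrix.of fun i j =>
      ∑ l, (a * b⁻¹ i l) * ((b l j - ι (b' l j)) / (a * (ϖ : L))) with hZdef
  have hZ : MIn (O : Set L) Z := by
    intro i j
    rw [hZdef, Matrix.of_apply]
    exact O.toSubring.sum_mem fun l _ => O.mul_mem _ _ (ha (i, l) (Finset.mem_univ _)) (hb' l j)
  have hkm : (Matrix.of b').map ι = b * (1 - (ϖ : L) • Z) := by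
    have h2 : (ϖ : L) • Z = b⁻¹ * (b - (Matrix.of b').map ι) := by
      ext i j
      rw [Matrix.smul_apply, hZdef, Matrix.of_apply, Matrix.mul_apply, smul_eq_mul,
        Finset.mul_sum]
      refine Finset.sum_congr rfl fun l _ => ?_
      rw [Matrix.sub_apply, Matrix.map_apply, Matrix.of_apply]
      field_simp
    rw [h2, Matrix.mul_sub, mul_one, ← mul_assoc,
      Matrix.mul_nonsing_inv _ (isUnit_iff_ne_zero.2 hb), one_mul]
    abel
  set c : Matrix (Fin n) (Fin n) L := 1 - (ϖ : L) • Z with hc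
  have hcM : MIn (O : Set L) c := by
    intro i j
    rw [hc, Matrix.sub_apply, Matrix.smul_apply]
    refine O.toSubring.sub_mem ?_ (O.mul_mem _ _ ϖ.2 (hZ i j))
    by_cases h : i = j
    · rw [h, Matrix.one_apply_eq]; exact O.one_mem
    · rw [Matrix.one_apply_ne h]; exact O.zero_mem
  have hcd : UI (O : Set L) c.det := det_unit hZ hϖm
  have key : ∀ A : Matrix (Fin n) (Fin n) K,
      ((Matrix.of b')ᵀ * A * Matrix.of b').map ι = cᵀ * (bᵀ * A.map ι * b) * c := by
    intro A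
    rw [Matrix.map_mul, Matrix.map_mul, Matrix.transpose_map, hkm, Matrix.transpose_mul]
    simp only [Matrix.mul_assoc]
  have hM : ∀ A : Matrix (Fin n) (Fin n) K, MIn (O : Set L) (bᵀ * A.map ι * b) →
      MIn I ((Matrix.of b')ᵀ * A * Matrix.of b') := by
    intro A hA i j
    rw [← hI]
    have h3 : ι (((Matrix.of b')ᵀ * A * Matrix.of b') i j) =
        (((Matrix.of b')ᵀ * A * Matrix.of b').map ι) i j := rfl
    rw [h3, key]
    exact QSKa.min_mul (QSKa.min_mul (QSKa.min_tr hcM) hA) hcM i j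
  refine ⟨Matrix.of b', ⟨hM A₀ h0.1, ?_⟩, hM A₁ h1⟩
  have h4 : ι ((Matrix.of b')ᵀ * A₀ * Matrix.of b').det =
      c.det * (bᵀ * A₀.map ι * b).det * c.det := by
    rw [RingHom.map_det, RingHom.mapMatrix_apply, key, Matrix.det_mul, Matrix.det_mul,
      Matrix.det_transpose]
  have h5 : ι ((Matrix.of b')ᵀ * A₀ * Matrix.of b').det ≠ 0 := by
    rw [h4]
    exact mul_ne_zero (mul_ne_zero hcd.1 hdet) hcd.1
  refine ⟨fun h => h5 (by rw [h, map_zero]), ?_, ?_⟩
  · rw [← hI, h4]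
    exact O.mul_mem _ _ (O.mul_mem _ _ hcd.2.1 h0.2.2.1) hcd.2.1
  · rw [← hI, map_inv₀, h4, mul_inv, mul_inv]
    exact O.mul_mem _ _ (O.mul_mem _ _ hcd.2.2 h0.2.2.2) hcd.2.2

end Pool.NFA
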